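import Pool.Agent.H506.D5.Stm2
import Pool.Agent.H731.P5.C1

/-!
# The divisor bound for `tau`, from `P5.p_C1` (helper969)
-/

open Polynomial
open scoped Classical

noncomputable section

namespace D5R

open D5

variable (F : Type) [Field F] [Fintype F] [CharP F 5]

theorem db (hB0 : S_B0 F) : S_DB F := by
  intro ε hε
  obtain ⟨hfin, hb⟩ := P5.p_C1 F
  obtain ⟨K, hK, h⟩ := hb ε hε
  refine ⟨K, hK, fun P hP => le_trans ?_ (h P hP)⟩
  have hf := hfin P hP
  have h1 : tau P ≤ P5.dv P := by
    unfold tau P5.dv
    rw [← Finset.card_biUnion]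
    · rw [← Set.ncard_coe_finset]
      refine Set.ncard_le_ncard ?_ hf
      intro m hm
      rw [Finset.mem_coe, Finset.mem_biUnion] at hm
      obtain ⟨i, -, hi⟩ := hm
      exact (Finset.mem_filter.1 hi).2
    · intro i _ j _ hij
      rw [Function.onFun, Finset.disjoint_left]
      intro m hm hm'
      rw [Finset.mem_filter, hB0.2.1] at hm hm'
      exact hij (hm.1.2.symm.trans hm'.1.2)
  exact_mod_cast h1

end D5R
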