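import Pool.Agent.H731.P5R.Main

/-!
# Half of the squarefree polynomials of degree `N` have a square as leading coefficient, half of them a non-square
-/

open Polynomial
open scoped Classical

noncomputable section

namespace D5R

variable (F : Type) [Field F] [Fintype F] [CharP F 5]

theorem mul_mem (N : ℕ) (c : F) (hc : c ≠ 0) (f : F[X]) (hf : f ∈ P5.SQ F N) : C c * f ∈ P5.SQ F N := by
  rw [P5.SQ, Finset.mem_filter] at hf ⊢
  obtain ⟨-, h1, h2⟩ := hf
  have hd : (C c * f).natDegree = N := by rw [natDegree_C_mul hc, h2]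
  refine ⟨?_, ?_, hd⟩
  · rw [(P5.a_B0 F).2.1]
    exact hd.le
  · exact (associated_unit_mul_left f (C c) (isUnit_C.mpr hc.isUnit)).squarefree_iff.mpr h1

theorem half (N : ℕ) :
    (P5.SQ F N).card ≤ 2 * ((P5.SQ F N).filter (fun f => IsSquare f.leadingCoeff)).card ∧
    (P5.SQ F N).card ≤ 2 * ((P5.SQ F N).filter (fun f => ¬ IsSquare f.leadingCoeff)).card := by
  obtain ⟨c, hc⟩ : ∃ c : F, ¬ IsSquare c := by
    refine FiniteField.exists_nonsquare ?_
    rw [ringChar.eq F 5]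
    norm_num
  have hc0 : c ≠ 0 := by
    rintro rfl
    exact hc (IsSquare.zero)
  have hne : ∀ f ∈ P5.SQ F N, f.leadingCoeff ≠ 0 := by
    intro f hf
    rw [P5.SQ, Finset.mem_filter] at hf
    exact leadingCoeff_ne_zero.mpr hf.2.1.ne_zero
  have hl : ∀ f : F[X], (C c * f).leadingCoeff = c * f.leadingCoeff :=
    fun f => leadingCoeff_C_mul_of_isUnit hc0.isUnit f
  have hinj : Function.Injective (fun f : F[X] => C c * f) := by
    intro f g h
    exact mul_left_cancel₀ (C_ne_zero.mpr hc0) h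
  have h1 : ∀ a : F, a ≠ 0 → (IsSquare (c * a) ↔ ¬ IsSquare a) := by
    intro a ha
    rw [← quadraticChar_one_iff_isSquare (mul_ne_zero hc0 ha), map_mul,
      quadraticChar_neg_one_iff_not_isSquare.mpr hc, ← quadraticChar_neg_one_iff_not_isSquare]
    constructor
    · intro h
      linarith
    · intro h
      rw [h]
      norm_num
  have h2 : ((P5.SQ F N).filter (fun f => IsSquare f.leadingCoeff)).card ≤
      ((P5.SQ F N).filter (fun f => ¬ IsSquare f.leadingCoeff)).card := by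
    refine Finset.card_le_card_of_injOn (fun f => C c * f) ?_ (hinj.injOn)
    intro f hf
    rw [Finset.mem_coe, Finset.mem_filter] at hf ⊢
    refine ⟨mul_mem F N c hc0 f hf.1, ?_⟩
    rw [hl, h1 _ (hne f hf.1), not_not]
    exact hf.2
  have h3 : ((P5.SQ F N).filter (fun f => ¬ IsSquare f.leadingCoeff)).card ≤
      ((P5.SQ F N).filter (fun f => IsSquare f.leadingCoeff)).card := by
    refine Finset.card_le_card_of_injOn (fun f => C c * f) ?_ (hinj.injOn)
    intro f hf
    rw [Finset.mem_coe, Finset.mem_filter] at hf ⊢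
    refine ⟨mul_mem F N c hc0 f hf.1, ?_⟩
    rw [hl, h1 _ (hne f hf.1)]
    exact hf.2
  have h4 := Finset.card_filter_add_card_filter_not (s := P5.SQ F N) (fun f => IsSquare f.leadingCoeff)
  omega

/-- The averages of the 5-torsion over the polynomials with square and with non-square leading coefficients. -/
theorem bounded_half : ∃ K : ℝ, 0 < K ∧ ∀ N : ℕ, 1 ≤ N →
    ((∑ f ∈ P5.SQ F N, P5.cl5 f : ℕ) : ℝ) ≤ K * ((P5.SQ F N).card : ℝ) ∧
    ((∑ f ∈ (P5.SQ F N).filter (fun f => IsSquare f.leadingCoeff), P5.cl5 f : ℕ) : ℝ) ≤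
      K * ((((P5.SQ F N).filter (fun f => IsSquare f.leadingCoeff)).card : ℕ) : ℝ) ∧
    ((∑ f ∈ (P5.SQ F N).filter (fun f => ¬ IsSquare f.leadingCoeff), P5.cl5 f : ℕ) : ℝ) ≤
      K * ((((P5.SQ F N).filter (fun f => ¬ IsSquare f.leadingCoeff)).card : ℕ) : ℝ) := by
  obtain ⟨K, hK, h⟩ := bounded_all F
  refine ⟨2 * K, by positivity, fun N hN => ?_⟩
  have h0 := h N hN
  obtain ⟨h1, h2⟩ := half F N
  have e1 : ((P5.SQ F N).card : ℝ) ≤
      2 * ((((P5.SQ F N).filter (fun f => IsSquare f.leadingCoeff)).card : ℕ) : ℝ) := by exact_mod_cast h1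
  have e2 : ((P5.SQ F N).card : ℝ) ≤
      2 * ((((P5.SQ F N).filter (fun f => ¬ IsSquare f.leadingCoeff)).card : ℕ) : ℝ) := by exact_mod_cast h2
  have s1 : ((∑ f ∈ (P5.SQ F N).filter (fun f => IsSquare f.leadingCoeff), P5.cl5 f : ℕ) : ℝ) ≤
      ((∑ f ∈ P5.SQ F N, P5.cl5 f : ℕ) : ℝ) := by
    exact_mod_cast Finset.sum_le_sum_of_subset (Finset.filter_subset _ _)
  have s2 : ((∑ f ∈ (P5.SQ F N).filter (fun f => ¬ IsSquare f.leadingCoeff), P5.cl5 f : ℕ) : ℝ) ≤
      ((∑ f ∈ P5.SQ F N, P5.cl5 f : ℕ) : ℝ) := by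
    exact_mod_cast Finset.sum_le_sum_of_subset (Finset.filter_subset _ _)
  have m1 := mul_le_mul_of_nonneg_left e1 hK.le
  have m2 := mul_le_mul_of_nonneg_left e2 hK.le
  have hn : (0 : ℝ) ≤ K * ((P5.SQ F N).card : ℝ) := by positivity
  refine ⟨?_, ?_, ?_⟩
  · linarith
  · linarith
  · linarith

end D5R
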