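import Pool.Agent.H731.P5R.R2
import Pool.Agent.H731.P5R.DB
import Pool.Agent.H506.D5.B0
import Pool.Agent.H506.D5.B1
import Pool.Agent.H506.D5.H1
import Pool.Agent.H506.D5.H2
import Pool.Agent.H506.D5.H3
import Pool.Agent.H506.D5.E4
import Pool.Agent.H506.D5.FR
import Pool.Agent.H506.D5.P0
import Pool.Agent.H506.D5.P0b
import Pool.Agent.H506.D5.P1
import Pool.Agent.H506.D5.P2
import Pool.Agent.H506.D5.G
import Pool.Agent.H506.D5.Q
import Pool.Agent.H506.D5.R1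
import Pool.Agent.H506.D5.R2
import Pool.Agent.H506.D5.SQ
import Pool.Agent.H506.D5.L1
import Pool.Agent.H506.D5.L2
import Pool.Agent.H506.D5.T0
import Pool.Agent.H506.D5.T1
import Pool.Agent.H506.D5.T2

/-!
# The average of the 5-torsion over all squarefree `f` of degree `N` is bounded: assembly

The lemmas `D5.*` are from the project of helper506 (the circle method over `F[X]`), the lemmas `P5.*` from the project of helper731.
-/

open Polynomial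
open scoped Classical

noncomputable section

namespace D5R

open D5

variable (F : Type) [Field F] [Fintype F] [CharP F 5]

theorem c_B0 : S_B0 F := p_B0 F
theorem c_B1 : S_B1 F := p_B1 F (c_B0 F)
theorem c_E4 : S_E4 F := p_E4 F (c_B0 F)
theorem c_H1 : S_H1 F := p_H1 F (c_B0 F)
theorem c_H2 : S_H2 F := p_H2 F (c_B0 F)
theorem c_H3 : S_H3 F := p_H3 F (c_B0 F) (c_H1 F) (c_H2 F)
theorem c_FR : S_FR F := p_FR F
theorem c_P0 : S_P0 F := p_P0 F (c_B0 F) (c_E4 F) (c_H1 F)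
theorem c_P0b : S_P0b F := p_P0b F (c_B0 F)
theorem c_P1 : S_P1 F := p_P1 F (c_B0 F) (c_E4 F) (c_H3 F)
theorem c_P2 : S_P2 F := p_P2 F (c_B0 F) (c_FR F) (c_P1 F)
theorem c_G : S_G F := p_G F (c_B0 F) (c_E4 F) (c_H3 F)
theorem c_Q : S_Q F := p_Q F (c_B0 F)
theorem c_R1 : S_R1 F := p_R1 F (c_B0 F) (c_Q F)
theorem c_R2 : S_R2 F := p_R2 F (c_B0 F) (c_FR F) (c_E4 F) (c_P0 F) (c_P0b F) (c_R1 F)
theorem c_SQ : S_SQ F := p_SQ F
theorem c_DB : S_DB F := db F (c_B0 F)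
theorem c_L1 : S_L1 F := p_L1 F (c_B0 F) (c_FR F) (c_E4 F) (c_P0 F)
theorem c_L2 : S_L2 F := p_L2 F (c_B0 F) (c_DB F) (c_L1 F)
theorem c_T0 : S_T0 F := p_T0 F (c_B0 F) (c_E4 F) (c_R2 F)
theorem c_T1 : S_T1 F := p_T1 F (c_B0 F) (c_SQ F) (c_E4 F) (c_T0 F)
theorem c_T2 : S_T2 F :=
  p_T2 F (c_B0 F) (c_FR F) (c_E4 F) (c_P0 F) (c_P2 F) (c_G F) (c_L2 F) (c_T1 F)

/-- The average of the 5-torsion over all squarefree `f` of degree `N` is bounded. -/
theorem bounded_all : ∃ K : ℝ, 0 < K ∧ ∀ N : ℕ, 1 ≤ N →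
    ((∑ f ∈ P5.SQ F N, P5.cl5 f : ℕ) : ℝ) ≤ K * ((P5.SQ F N).card : ℝ) :=
  bounded F (c_B0 F) (c_B1 F) (c_T2 F)

end D5R
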