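import Pool.Agent.H506.D5.E1
import Pool.Agent.H506.D5.E2

/-!
# Weyl differencing and the count of pairs, for all polynomials `f` of degree at most `2 g` (real and imaginary)

Adaptations of `Pool.Agent.H506.D5.E1` (helper127) and `Pool.Agent.H506.D5.E2`, where `f` is monic of degree `2 g + 1`.
-/

open Polynomial
open scoped Classical

noncomputable section

namespace D5R

open D5 D5.XE1 D5.XE2

variable (F : Type) [Field F] [Fintype F] [CharP F 5]

/-- Weyl differencing over all `f` of degree `≤ 2 g`. -/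
theorem e1 (hB0 : S_B0 F) (ψ : AddChar F ℂ) (hψ : ψ ≠ 1) (g : ℕ) (l : Fin g → F) (v : F[X]) :
    ‖∑ f ∈ POL F (2 * g + 1), ψ (Lam g l (f ^ 2 * v))‖ ^ 2 ≤ qq F ^ (2 * g + 1) * (KK g l v : ℝ) := by
  set n : ℕ := 2 * g + 1 with hn
  set E : F[X] → ℂ := fun u => ψ (Lam g l (u ^ 2 * v)) with hE
  have h1 : ∀ u z : F[X], E (u + z) * (starRingEnd ℂ) (E u) =
      ψ (Lam g l (z ^ 2 * v)) * ψ (Lam g l (v * z * u + v * z * u)) := by
    intro u z
    rw [hE]
    dsimp only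
    rw [← AddChar.map_neg_eq_conj, ← AddChar.map_add_eq_mul, ← AddChar.map_add_eq_mul]
    congr 1
    have h2 : (u + z) ^ 2 * v = u ^ 2 * v + z ^ 2 * v + (v * z * u + v * z * u) := by ring
    rw [h2, Lam_add, Lam_add]
    ring
  have h2 : (∑ u ∈ POL F n, E u) * (starRingEnd ℂ) (∑ u ∈ POL F n, E u) =
      ∑ z ∈ POL F n, ψ (Lam g l (z ^ 2 * v)) *
        ∑ u ∈ POL F n, ψ (Lam g l (v * z * u + v * z * u)) := by
    rw [map_sum, Finset.sum_mul_sum, Finset.sum_comm]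
    have h3 : ∀ u ∈ POL F n, ∑ w ∈ POL F n, E w * (starRingEnd ℂ) (E u) =
        ∑ z ∈ POL F n, ψ (Lam g l (z ^ 2 * v)) *
          ψ (Lam g l (v * z * u + v * z * u)) := by
      intro u hu
      rw [← sum_shift hB0 hu (fun w => E w * (starRingEnd ℂ) (E u))]
      exact Finset.sum_congr rfl fun z _ => h1 u z
    rw [Finset.sum_congr rfl h3, Finset.sum_comm]
    exact Finset.sum_congr rfl fun z _ => (Finset.mul_sum _ _ _).symm
  have h4 : ‖∑ u ∈ POL F n, E u‖ ^ 2 =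
      ‖(∑ u ∈ POL F n, E u) * (starRingEnd ℂ) (∑ u ∈ POL F n, E u)‖ := by
    rw [norm_mul, RCLike.norm_conj, sq]
  rw [h4, h2]
  refine (norm_sum_le _ _).trans ?_
  have h5 : ∀ z ∈ POL F n, ‖ψ (Lam g l (z ^ 2 * v)) *
      ∑ u ∈ POL F n, ψ (Lam g l (v * z * u + v * z * u))‖ ≤
      if ∀ y ∈ POL F n, Lam g l (v * z * y) = 0 then qq F ^ n else 0 := by
    intro z _
    rw [norm_mul, AddChar.norm_apply, one_mul]
    exact inner hB0 two_ne ψ hψ g l (v * z) n
  refine (Finset.sum_le_sum h5).trans (le_of_eq ?_)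
  rw [← Finset.sum_filter, Finset.sum_const, nsmul_eq_mul, mul_comm]
  refine congrArg (fun k : ℕ => qq F ^ n * (k : ℝ)) ?_
  unfold KK
  refine congrArg Finset.card (Finset.ext fun z => ?_)
  simp only [Finset.mem_filter, hn]

/-- The number of the `f` of degree `≤ 2 g` with `(f² v)'''' = - v ^ 5`. -/
theorem e2 (hB0 : S_B0 F) (hB1 : S_B1 F) (g : ℕ) (v : F[X]) :
    qq F ^ g * (((POL F (2 * g + 1)).filter (fun f => IsSol f v)).card : ℝ) ≤
      qq F ^ (2 * g + 1) + ∑ l ∈ (Finset.univ : Finset (Fin g → F)).filter (fun l => l ≠ 0),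
        Real.sqrt (qq F ^ (2 * g + 1) * (KK g l v : ℝ)) := by
  have hE1 := e1 F hB0
  obtain ⟨-, -, -, hM, -, -⟩ := hB0
  obtain ⟨-, -, hS, -, -⟩ := hB1
  obtain ⟨ψ, hψ⟩ : ∃ ψ : AddChar F ℂ, ψ ≠ 1 := by
    obtain ⟨ψ, hψ⟩ := (AddChar.exists_apply_ne_zero (α := F) (a := 1)).2 one_ne_zero
    exact ⟨ψ, fun h => hψ (by rw [h]; rfl)⟩
  set A : F[X] → Fin g → F := fun f j =>
    (f ^ 2 * v).coeff (5 * (j : ℕ) + 4) - (v.coeff (j : ℕ)) ^ 5 with hA
  set T : Finset F[X] := (POL F (2 * g + 1)).filter (fun f => ∀ j, A f j = 0) with hT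
  have hsub : (POL F (2 * g + 1)).filter (fun f => IsSol f v) ⊆ T := by
    intro f hf
    rw [Finset.mem_filter] at hf
    rw [hT, Finset.mem_filter]
    refine ⟨hf.1, fun j => ?_⟩
    exact sub_eq_zero.2 ((hS f v).1 hf.2 j)
  have hcount : (Fintype.card F : ℂ) ^ g * (T.card : ℂ) =
      ∑ l : Fin g → F, ∑ f ∈ POL F (2 * g + 1), ψ (∑ j, l j * A f j) := by
    rw [Finset.sum_comm, Finset.sum_congr rfl (fun f _ => orth hψ g (A f)), ← Finset.sum_filter,
      Finset.sum_const, nsmul_eq_mul, mul_comm]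
  have hterm : ∀ l : Fin g → F, ‖∑ f ∈ POL F (2 * g + 1), ψ (∑ j, l j * A f j)‖ =
      ‖∑ f ∈ POL F (2 * g + 1), ψ (Lam g l (f ^ 2 * v))‖ := by
    intro l
    have h1 : ∀ f : F[X], ψ (∑ j, l j * A f j) =
        ψ (Lam g l (f ^ 2 * v)) * ψ (-(∑ j : Fin g, l j * v.coeff (j : ℕ) ^ 5)) := by
      intro f
      rw [← AddChar.map_add_eq_mul]
      congr 1
      unfold Lam
      rw [← sub_eq_add_neg, ← Finset.sum_sub_distrib]
      refine Finset.sum_congr rfl fun j _ => ?_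
      simp only [hA]
      ring
    rw [Finset.sum_congr rfl (fun f _ => h1 f), ← Finset.sum_mul, norm_mul, AddChar.norm_apply,
      mul_one]
  have hnorm : qq F ^ g * (T.card : ℝ) ≤
      ∑ l : Fin g → F, ‖∑ f ∈ POL F (2 * g + 1), ψ (Lam g l (f ^ 2 * v))‖ := by
    have h1 : ‖(Fintype.card F : ℂ) ^ g * (T.card : ℂ)‖ = qq F ^ g * (T.card : ℝ) := by
      rw [norm_mul, norm_pow, Complex.norm_natCast, Complex.norm_natCast]
      rfl
    rw [← h1, hcount]
    refine (norm_sum_le _ _).trans (le_of_eq ?_)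
    exact Finset.sum_congr rfl fun l _ => hterm l
  have hq0 : 0 ≤ qq F := Nat.cast_nonneg _
  have hle : ((((POL F (2 * g + 1)).filter (fun f => IsSol f v)).card : ℕ) : ℝ) ≤ (T.card : ℝ) := by
    exact_mod_cast Finset.card_le_card hsub
  have hsplit := Finset.sum_filter_add_sum_filter_not (Finset.univ : Finset (Fin g → F))
    (fun l => l ≠ 0) (fun l => ‖∑ f ∈ POL F (2 * g + 1), ψ (Lam g l (f ^ 2 * v))‖)
  have hzero : ∑ l ∈ (Finset.univ : Finset (Fin g → F)).filter (fun l => ¬ l ≠ 0),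
      ‖∑ f ∈ POL F (2 * g + 1), ψ (Lam g l (f ^ 2 * v))‖ ≤ qq F ^ (2 * g + 1) := by
    have h1 : (Finset.univ : Finset (Fin g → F)).filter (fun l => ¬ l ≠ 0) = {0} := by
      ext l
      simp only [Finset.mem_filter, Finset.mem_univ, true_and, not_not, Finset.mem_singleton]
    rw [h1, Finset.sum_singleton]
    refine (norm_sum_le _ _).trans (le_of_eq ?_)
    rw [Finset.sum_congr rfl (fun f _ => AddChar.norm_apply ψ _), Finset.sum_const, nsmul_eq_mul,
      mul_one, hM]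
    unfold qq
    push_cast
    rfl
  have hne : ∑ l ∈ (Finset.univ : Finset (Fin g → F)).filter (fun l => l ≠ 0),
      ‖∑ f ∈ POL F (2 * g + 1), ψ (Lam g l (f ^ 2 * v))‖ ≤
      ∑ l ∈ (Finset.univ : Finset (Fin g → F)).filter (fun l => l ≠ 0),
        Real.sqrt (qq F ^ (2 * g + 1) * (KK g l v : ℝ)) := by
    refine Finset.sum_le_sum fun l _ => ?_
    exact (le_abs_self _).trans (Real.abs_le_sqrt (hE1 ψ hψ g l v))
  calc qq F ^ g * ((((POL F (2 * g + 1)).filter (fun f => IsSol f v)).card : ℕ) : ℝ)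
      ≤ qq F ^ g * (T.card : ℝ) := mul_le_mul_of_nonneg_left hle (pow_nonneg hq0 g)
    _ ≤ _ := hnorm
    _ ≤ _ := by rw [← hsplit]; linarith

end D5R
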