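import Pool.Agent.H731.P5R.R1
import Pool.Agent.H506.D5.Stm2
import Pool.Agent.H731.P5.Main

/-!
# The average of the 5-torsion over all squarefree `f` of degree `N` is bounded, from T2
-/

open Polynomial
open scoped Classical

noncomputable section

namespace D5R

open D5

variable (F : Type) [Field F] [Fintype F] [CharP F 5]

omit [CharP F 5] in
theorem q1 : 1 ≤ qq F := by
  unfold qq
  exact_mod_cast Fintype.card_pos

/-- The number of pairs `(f, v)`, `deg f ≤ 2 g`, `v ≠ 0` of degree `< g`, with `(f² v)'''' = - v ^ 5`. -/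
theorem pairs (hB0 : S_B0 F) (hB1 : S_B1 F) (C : ℝ) (g : ℕ)
    (hT2 : ∑ v ∈ (POL F g).filter (fun v => v ≠ 0),
      ∑ l ∈ (Finset.univ : Finset (Fin g → F)).filter (fun l => l ≠ 0), Real.sqrt (KK g l v : ℝ) ≤
        C * qq F ^ (2 * g + 5)) :
    ∑ v ∈ (POL F g).filter (fun v => v ≠ 0), (((POL F (2 * g + 1)).filter (fun f => IsSol f v)).card : ℝ) ≤
      (1 + C) * qq F ^ (2 * g + 6) := by
  have hq := q1 F
  have hq0 : 0 < qq F := by linarith
  have hg0 : 0 < qq F ^ g := pow_pos hq0 g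
  have hsq : ∀ (l : Fin g → F) (v : F[X]), Real.sqrt (qq F ^ (2 * g + 1) * (KK g l v : ℝ)) ≤
      qq F ^ (g + 1) * Real.sqrt (KK g l v : ℝ) := by
    intro l v
    rw [Real.sqrt_mul (by positivity)]
    refine mul_le_mul_of_nonneg_right ?_ (Real.sqrt_nonneg _)
    rw [Real.sqrt_le_left (by positivity), ← pow_mul]
    exact pow_le_pow_right₀ hq (by omega)
  have h1 : ∀ v ∈ (POL F g).filter (fun v => v ≠ 0),
      qq F ^ g * (((POL F (2 * g + 1)).filter (fun f => IsSol f v)).card : ℝ) ≤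
        qq F ^ (2 * g + 1) + qq F ^ (g + 1) *
          ∑ l ∈ (Finset.univ : Finset (Fin g → F)).filter (fun l => l ≠ 0), Real.sqrt (KK g l v : ℝ) := by
    intro v _
    refine (e2 F hB0 hB1 g v).trans ?_
    rw [Finset.mul_sum]
    have := Finset.sum_le_sum (fun l (_ : l ∈ (Finset.univ : Finset (Fin g → F)).filter (fun l => l ≠ 0)) => hsq l v)
    linarith
  have h2 := Finset.sum_le_sum h1
  rw [← Finset.mul_sum, Finset.sum_add_distrib, ← Finset.mul_sum, Finset.sum_const, nsmul_eq_mul] at h2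
  have hcard : ((((POL F g).filter (fun v => v ≠ 0)).card : ℕ) : ℝ) ≤ qq F ^ g := by
    have : ((POL F g).filter (fun v => v ≠ 0)).card ≤ Fintype.card F ^ g := by
      rw [← hB0.2.2.2.1 g]
      exact Finset.card_filter_le _ _
    unfold qq
    exact_mod_cast this
  have h3 : ((((POL F g).filter (fun v => v ≠ 0)).card : ℕ) : ℝ) * qq F ^ (2 * g + 1) ≤
      qq F ^ g * qq F ^ (2 * g + 6) := by
    refine mul_le_mul hcard (pow_le_pow_right₀ hq (by omega)) (by positivity) (by positivity)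
  have h4 : qq F ^ (g + 1) * ∑ v ∈ (POL F g).filter (fun v => v ≠ 0),
      ∑ l ∈ (Finset.univ : Finset (Fin g → F)).filter (fun l => l ≠ 0), Real.sqrt (KK g l v : ℝ) ≤
      qq F ^ g * (C * qq F ^ (2 * g + 6)) := by
    refine (mul_le_mul_of_nonneg_left hT2 (by positivity)).trans (le_of_eq ?_)
    ring
  have h5 : qq F ^ g * ∑ v ∈ (POL F g).filter (fun v => v ≠ 0),
      (((POL F (2 * g + 1)).filter (fun f => IsSol f v)).card : ℝ) ≤
      qq F ^ g * ((1 + C) * qq F ^ (2 * g + 6)) := by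
    refine h2.trans ?_
    have : qq F ^ g * ((1 + C) * qq F ^ (2 * g + 6)) =
        qq F ^ g * qq F ^ (2 * g + 6) + qq F ^ g * (C * qq F ^ (2 * g + 6)) := by ring
    rw [this]
    linarith
  exact le_of_mul_le_mul_left h5 hg0

/-- The average of the 5-torsion over the squarefree `f` of degree `N`. -/
theorem average (hB0 : S_B0 F) (hB1 : S_B1 F) (C : ℝ) (hC : 0 < C) (N : ℕ) (hN : 1 ≤ N)
    (hT2 : ∑ v ∈ (POL F ((N + 1) / 2)).filter (fun v => v ≠ 0),
      ∑ l ∈ (Finset.univ : Finset (Fin ((N + 1) / 2) → F)).filter (fun l => l ≠ 0),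
        Real.sqrt (KK ((N + 1) / 2) l v : ℝ) ≤ C * qq F ^ (2 * ((N + 1) / 2) + 5)) :
    ((∑ f ∈ P5.SQ F N, P5.cl5 f : ℕ) : ℝ) ≤
      (1 + 2 * (1 + C) * qq F ^ 7) * ((P5.SQ F N).card : ℝ) := by
  have hq := q1 F
  set g : ℕ := (N + 1) / 2 with hg
  have hp := pairs F hB0 hB1 C g hT2
  have hA9 := P5.a_A9 F
  have hE1 := P5.a_E1 F N hN
  have hdeg : ∀ f ∈ P5.SQ F N, Squarefree f ∧ f.natDegree = N := by
    intro f hf
    rw [P5.SQ, Finset.mem_filter] at hf
    exact hf.2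
  have h1 : ∀ f ∈ P5.SQ F N, P5.cl5 f ≤
      1 + ((POL F g).filter (fun v => v ≠ 0 ∧ IsSol f v)).card := by
    intro f hf
    obtain ⟨hs, hd⟩ := hdeg f hf
    refine ((hA9 f hs (by omega)).2).trans ?_
    have hsub : (P5.POL F f.natDegree).filter (fun v => P5.IsSol f v) ⊆
        {0} ∪ (POL F g).filter (fun v => v ≠ 0 ∧ IsSol f v) := by
      intro v hv
      rw [Finset.mem_filter] at hv
      have hv2 : IsSol f v := hv.2
      rw [Finset.mem_union, Finset.mem_singleton, Finset.mem_filter]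
      by_cases h0 : v = 0
      · exact Or.inl h0
      · refine Or.inr ⟨?_, h0, hv2⟩
        have h2 := hB1.2.2.2.1 f v h0 hv2
        rw [hB0.1, degree_eq_natDegree h0]
        exact_mod_cast (by omega : v.natDegree < g)
    refine (Finset.card_le_card hsub).trans ((Finset.card_union_le _ _).trans ?_)
    rw [Finset.card_singleton]
  have h2 : ∑ f ∈ P5.SQ F N, ((POL F g).filter (fun v => v ≠ 0 ∧ IsSol f v)).card =
      ∑ v ∈ (POL F g).filter (fun v => v ≠ 0), ((P5.SQ F N).filter (fun f => IsSol f v)).card := by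
    have e1 : ∀ f, ((POL F g).filter (fun v => v ≠ 0 ∧ IsSol f v)).card =
        ∑ v ∈ (POL F g).filter (fun v => v ≠ 0), if IsSol f v then 1 else 0 := by
      intro f
      rw [← Finset.filter_filter, Finset.card_filter]
    have e2 : ∀ v, ((P5.SQ F N).filter (fun f => IsSol f v)).card =
        ∑ f ∈ P5.SQ F N, if IsSol f v then 1 else 0 := by
      intro v
      rw [Finset.card_filter]
    rw [Finset.sum_congr rfl (fun f _ => e1 f), Finset.sum_comm]
    exact Finset.sum_congr rfl (fun v _ => (e2 v).symm)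
  have h3 : ∀ v ∈ (POL F g).filter (fun v => v ≠ 0), ((P5.SQ F N).filter (fun f => IsSol f v)).card ≤
      ((POL F (2 * g + 1)).filter (fun f => IsSol f v)).card := by
    intro v _
    refine Finset.card_le_card (Finset.filter_subset_filter _ ?_)
    intro f hf
    obtain ⟨hs, hd⟩ := hdeg f hf
    rw [hB0.1]
    refine (degree_le_natDegree).trans_lt ?_
    exact_mod_cast (by omega : f.natDegree < 2 * g + 1)
  have h4 : ((∑ f ∈ P5.SQ F N, P5.cl5 f : ℕ) : ℝ) ≤
      ((P5.SQ F N).card : ℝ) + (1 + C) * qq F ^ (2 * g + 6) := by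
    have e : ∑ f ∈ P5.SQ F N, P5.cl5 f ≤ (P5.SQ F N).card +
        ∑ v ∈ (POL F g).filter (fun v => v ≠ 0), ((POL F (2 * g + 1)).filter (fun f => IsSol f v)).card := by
      refine (Finset.sum_le_sum h1).trans ?_
      rw [Finset.sum_add_distrib, h2, Finset.sum_const, smul_eq_mul, mul_one]
      exact Nat.add_le_add_left (Finset.sum_le_sum h3) _
    have e' : ((∑ f ∈ P5.SQ F N, P5.cl5 f : ℕ) : ℝ) ≤ (((P5.SQ F N).card +
        ∑ v ∈ (POL F g).filter (fun v => v ≠ 0), ((POL F (2 * g + 1)).filter (fun f => IsSol f v)).card : ℕ) : ℝ) := by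
      exact_mod_cast e
    refine e'.trans ?_
    rw [Nat.cast_add, Nat.cast_sum]
    linarith
  have h5 : qq F ^ (2 * g + 6) ≤ qq F ^ 7 * qq F ^ N := by
    rw [← pow_add]
    exact pow_le_pow_right₀ hq (by omega)
  have h6 : qq F ^ N ≤ 2 * ((P5.SQ F N).card : ℝ) := by
    unfold qq
    exact_mod_cast hE1
  have h7 : (1 + C) * qq F ^ (2 * g + 6) ≤ (1 + C) * (qq F ^ 7 * (2 * ((P5.SQ F N).card : ℝ))) := by
    refine mul_le_mul_of_nonneg_left (h5.trans ?_) (by linarith)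
    exact mul_le_mul_of_nonneg_left h6 (by positivity)
  calc ((∑ f ∈ P5.SQ F N, P5.cl5 f : ℕ) : ℝ) ≤ ((P5.SQ F N).card : ℝ) + (1 + C) * qq F ^ (2 * g + 6) := h4
    _ ≤ ((P5.SQ F N).card : ℝ) + (1 + C) * (qq F ^ 7 * (2 * ((P5.SQ F N).card : ℝ))) := by linarith
    _ = (1 + 2 * (1 + C) * qq F ^ 7) * ((P5.SQ F N).card : ℝ) := by ring

/-- The average of the 5-torsion is bounded, from T2. -/
theorem bounded (hB0 : S_B0 F) (hB1 : S_B1 F) (hT2 : S_T2 F) :
    ∃ K : ℝ, 0 < K ∧ ∀ N : ℕ, 1 ≤ N →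
      ((∑ f ∈ P5.SQ F N, P5.cl5 f : ℕ) : ℝ) ≤ K * ((P5.SQ F N).card : ℝ) := by
  obtain ⟨C, hC, h⟩ := hT2
  have hq := q1 F
  have hq7 : 0 ≤ qq F ^ 7 := by positivity
  exact ⟨1 + 2 * (1 + C) * qq F ^ 7, by positivity, fun N hN => average F hB0 hB1 C hC N hN (h _)⟩

end D5R
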