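import Pool.Agent.H506.D5.X1
import Pool.Agent.H506.D5.X2

/-!
# Even degree: exponential sums over `c X ^ n + u` and the count of the `f`

Adaptations of `Pool.Agent.H506.D5.X1` (helper127, helper898) and `Pool.Agent.H506.D5.X2`.
-/

open Polynomial
open scoped Classical

noncomputable section

namespace D5V

open D5 D5.XX1 D5.XX2

variable {F : Type} [Field F] [Fintype F] [CharP F 5]

/-- The linear form `z ↦ Lam (v z X ^ n)` vanishes on the radical. -/
def ExV (g : ℕ) (l : Fin g → F) (v : F[X]) (n : ℕ) : Prop :=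
  ∀ z ∈ Rad g l v n, Lam g l (v * z * X ^ n) = 0

omit [CharP F 5] in
lemma rad_sumY (hB0 : S_B0 F) (h2 : (2 : F) ≠ 0) (ψ : AddChar F ℂ) (hψ : ψ ≠ 1) (g : ℕ)
    (l : Fin g → F) (v : F[X]) (n : ℕ) (Y : F[X])
    (h : ¬ ∀ z ∈ Rad g l v n, Lam g l (v * z * Y) = 0) :
    ∑ z ∈ Rad g l v n, ψ (Lam g l (v * z * Y + v * z * Y)) = 0 := by
  push Not at h
  obtain ⟨z₀, hz₀, hc⟩ := h
  obtain ⟨a, ha⟩ := AddChar.ne_one_iff.1 hψ
  have hz₁ : C (a / (2 * Lam g l (v * z₀ * Y))) * z₀ ∈ Rad g l v n := rad_C_mul hB0 _ hz₀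
  have h3 := rad_shift hB0 hz₁ (fun z => ψ (Lam g l (v * z * Y + v * z * Y)))
  have h4 : ∀ z, ψ (Lam g l (v * (C (a / (2 * Lam g l (v * z₀ * Y))) * z₀ + z) * Y +
      v * (C (a / (2 * Lam g l (v * z₀ * Y))) * z₀ + z) * Y)) =
      ψ a * ψ (Lam g l (v * z * Y + v * z * Y)) := by
    intro z
    rw [← AddChar.map_add_eq_mul]
    congr 1
    have h5 : v * (C (a / (2 * Lam g l (v * z₀ * Y))) * z₀ + z) * Y +
        v * (C (a / (2 * Lam g l (v * z₀ * Y))) * z₀ + z) * Y =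
        (C (a / (2 * Lam g l (v * z₀ * Y))) * (v * z₀ * Y) +
          C (a / (2 * Lam g l (v * z₀ * Y))) * (v * z₀ * Y)) +
          (v * z * Y + v * z * Y) := by ring
    rw [h5, Lam_add, Lam_add, Lam_C_mul]
    congr 1
    field_simp
    ring
  simp only [h4] at h3
  rw [← Finset.mul_sum] at h3
  have h6 : (ψ a - 1) * ∑ z ∈ Rad g l v n, ψ (Lam g l (v * z * Y + v * z * Y)) = 0 := by
    rw [sub_mul, one_mul, h3, sub_self]
  rcases mul_eq_zero.1 h6 with h8 | h8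
  · exact absurd (sub_eq_zero.1 h8) ha
  · exact h8

/-- The exponential sum over the polynomials `Y + u`. -/
theorem v1 (hB0 : S_B0 F) (ψ : AddChar F ℂ) (hψ : ψ ≠ 1) (g : ℕ) (l : Fin g → F) (v : F[X]) (n : ℕ)
    (Y : F[X]) :
    ‖∑ u ∈ POL F n, ψ (Lam g l ((Y + u) ^ 2 * v))‖ ^ 2 ≤
      if (∀ z ∈ Rad g l v n, Lam g l (v * z * Y) = 0) then qq F ^ n * ((Rad g l v n).card : ℝ) else 0 := by
  set E : F[X] → ℂ := fun u => ψ (Lam g l ((Y + u) ^ 2 * v)) with hE
  have h1 : ∀ u z : F[X], E (u + z) * (starRingEnd ℂ) (E u) =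
      ψ (Lam g l (z ^ 2 * v + (v * z * Y + v * z * Y))) *
        ψ (Lam g l (v * z * u + v * z * u)) := by
    intro u z
    rw [hE]
    dsimp only
    rw [← AddChar.map_neg_eq_conj, ← AddChar.map_add_eq_mul, ← AddChar.map_add_eq_mul]
    congr 1
    have h2 : (Y + (u + z)) ^ 2 * v = (Y + u) ^ 2 * v +
        (z ^ 2 * v + (v * z * Y + v * z * Y)) + (v * z * u + v * z * u) := by ring
    rw [h2, Lam_add, Lam_add]
    ring
  have h2 : (∑ u ∈ POL F n, E u) * (starRingEnd ℂ) (∑ u ∈ POL F n, E u) =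
      ∑ z ∈ POL F n, ψ (Lam g l (z ^ 2 * v + (v * z * Y + v * z * Y))) *
        ∑ u ∈ POL F n, ψ (Lam g l (v * z * u + v * z * u)) := by
    rw [map_sum, Finset.sum_mul_sum, Finset.sum_comm]
    have h3 : ∀ u ∈ POL F n, ∑ w ∈ POL F n, E w * (starRingEnd ℂ) (E u) =
        ∑ z ∈ POL F n, ψ (Lam g l (z ^ 2 * v + (v * z * Y + v * z * Y))) *
          ψ (Lam g l (v * z * u + v * z * u)) := by
      intro u hu
      rw [← sum_shift hB0 hu (fun w => E w * (starRingEnd ℂ) (E u))]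
      exact Finset.sum_congr rfl fun z _ => h1 u z
    rw [Finset.sum_congr rfl h3, Finset.sum_comm]
    exact Finset.sum_congr rfl fun z _ => (Finset.mul_sum _ _ _).symm
  have h3 : (∑ u ∈ POL F n, E u) * (starRingEnd ℂ) (∑ u ∈ POL F n, E u) =
      (∑ z ∈ Rad g l v n, ψ (Lam g l (v * z * Y + v * z * Y))) *
        ((Fintype.card F ^ n : ℕ) : ℂ) := by
    rw [h2, Finset.sum_mul]
    unfold Rad
    rw [Finset.sum_filter]
    refine Finset.sum_congr rfl fun z hz => ?_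
    split_ifs with h
    · rw [inner1 hB0 ψ g l (v * z) n h, Lam_add,
        show z ^ 2 * v = v * z * z by ring, h z hz, zero_add]
    · rw [inner0 hB0 two_ne ψ hψ g l (v * z) n h, mul_zero]
  have h4 : ‖∑ u ∈ POL F n, E u‖ ^ 2 =
      ‖(∑ u ∈ POL F n, E u) * (starRingEnd ℂ) (∑ u ∈ POL F n, E u)‖ := by
    rw [norm_mul, RCLike.norm_conj, sq]
  rw [h4, h3]
  split_ifs with hx
  · rw [norm_mul]
    have h5 : ‖∑ z ∈ Rad g l v n, ψ (Lam g l (v * z * Y + v * z * Y))‖ ≤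
        ((Rad g l v n).card : ℝ) := by
      refine (norm_sum_le _ _).trans (le_of_eq ?_)
      rw [Finset.sum_congr rfl fun z _ => AddChar.norm_apply ψ _, Finset.sum_const,
        nsmul_eq_mul, mul_one]
    have h6 : ‖((Fintype.card F ^ n : ℕ) : ℂ)‖ = qq F ^ n := by
      rw [Complex.norm_natCast]
      unfold qq
      rw [Nat.cast_pow]
    rw [h6, mul_comm]
    exact mul_le_mul_of_nonneg_left h5 (pow_nonneg (Nat.cast_nonneg _) _)
  · rw [rad_sumY hB0 two_ne ψ hψ g l v n Y hx, zero_mul, norm_zero]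

/-- The polynomials `c X ^ n + u`, `deg u < n`. -/
def FC (F : Type) [Field F] [Fintype F] (c : F) (n : ℕ) : Finset F[X] :=
  (POL F n).image (fun u => C c * X ^ n + u)

/-- The number of the `f = c X ^ n + u` with `(f² v)'''' = - v ^ 5`. -/
theorem v2 (hB0 : S_B0 F) (hB1 : S_B1 F) (g n : ℕ) (c : F) (hc : c ≠ 0) (v : F[X]) :
    qq F ^ g * (((FC F c n).filter (fun f => IsSol f v)).card : ℝ) ≤
      qq F ^ n + ∑ l ∈ (Finset.univ : Finset (Fin g → F)).filter (fun l => l ≠ 0 ∧ ExV g l v n),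
        Real.sqrt (qq F ^ n * ((Rad g l v n).card : ℝ)) := by
  have hV1 := fun (ψ : AddChar F ℂ) (hψ : ψ ≠ 1) (l : Fin g → F) => v1 hB0 ψ hψ g l v n (C c * X ^ n)
  obtain ⟨-, -, -, hM, -, -⟩ := hB0
  obtain ⟨-, -, hS, -, -⟩ := hB1
  obtain ⟨ψ, hψ⟩ : ∃ ψ : AddChar F ℂ, ψ ≠ 1 := by
    obtain ⟨ψ, hψ⟩ := (AddChar.exists_apply_ne_zero (α := F) (a := 1)).2 one_ne_zero
    exact ⟨ψ, fun h => hψ (by rw [h]; rfl)⟩
  have hcardFC : (FC F c n).card = Fintype.card F ^ n := by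
    unfold FC
    rw [Finset.card_image_of_injective _ (fun a b h => add_left_cancel h), hM]
  have hsumFC : ∀ G : F[X] → ℂ, ∑ f ∈ FC F c n, G f = ∑ u ∈ POL F n, G (C c * X ^ n + u) := by
    intro G
    unfold FC
    rw [Finset.sum_image fun u _ w _ h => add_left_cancel h]
  set A : F[X] → Fin g → F := fun f j =>
    (f ^ 2 * v).coeff (5 * (j : ℕ) + 4) - (v.coeff (j : ℕ)) ^ 5 with hA
  set T : Finset F[X] := (FC F c n).filter (fun f => ∀ j, A f j = 0) with hT
  have hsub : (FC F c n).filter (fun f => IsSol f v) ⊆ T := by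
    intro f hf
    rw [Finset.mem_filter] at hf
    rw [hT, Finset.mem_filter]
    refine ⟨hf.1, fun j => ?_⟩
    exact sub_eq_zero.2 ((hS f v).1 hf.2 j)
  have hcount : (Fintype.card F : ℂ) ^ g * (T.card : ℂ) =
      ∑ l : Fin g → F, ∑ f ∈ FC F c n, ψ (∑ j, l j * A f j) := by
    rw [Finset.sum_comm, Finset.sum_congr rfl (fun f _ => orth hψ g (A f)), ← Finset.sum_filter,
      Finset.sum_const, nsmul_eq_mul, mul_comm]
  have hterm : ∀ l : Fin g → F, ‖∑ f ∈ FC F c n, ψ (∑ j, l j * A f j)‖ =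
      ‖∑ f ∈ FC F c n, ψ (Lam g l (f ^ 2 * v))‖ := by
    intro l
    have h1 : ∀ f : F[X], ψ (∑ j, l j * A f j) =
        ψ (Lam g l (f ^ 2 * v)) * ψ (-(∑ j : Fin g, l j * v.coeff (j : ℕ) ^ 5)) := by
      intro f
      rw [← AddChar.map_add_eq_mul]
      congr 1
      unfold Lam
      rw [← sub_eq_add_neg, ← Finset.sum_sub_distrib]
      refine Finset.sum_congr rfl fun j _ => ?_
      simp only [hA]
      ring
    rw [Finset.sum_congr rfl (fun f _ => h1 f), ← Finset.sum_mul, norm_mul, AddChar.norm_apply,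
      mul_one]
  have hnorm : qq F ^ g * (T.card : ℝ) ≤
      ∑ l : Fin g → F, ‖∑ f ∈ FC F c n, ψ (Lam g l (f ^ 2 * v))‖ := by
    have h1 : ‖(Fintype.card F : ℂ) ^ g * (T.card : ℂ)‖ = qq F ^ g * (T.card : ℝ) := by
      rw [norm_mul, norm_pow, Complex.norm_natCast, Complex.norm_natCast]
      rfl
    rw [← h1, hcount]
    refine (norm_sum_le _ _).trans (le_of_eq ?_)
    exact Finset.sum_congr rfl fun l _ => hterm l
  have hq0 : 0 ≤ qq F := Nat.cast_nonneg _
  have hle : ((((FC F c n).filter (fun f => IsSol f v)).card : ℕ) : ℝ) ≤ (T.card : ℝ) := by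
    exact_mod_cast Finset.card_le_card hsub
  have hsplit := Finset.sum_filter_add_sum_filter_not (Finset.univ : Finset (Fin g → F))
    (fun l => l ≠ 0) (fun l => ‖∑ f ∈ FC F c n, ψ (Lam g l (f ^ 2 * v))‖)
  have hzero : ∑ l ∈ (Finset.univ : Finset (Fin g → F)).filter (fun l => ¬ l ≠ 0),
      ‖∑ f ∈ FC F c n, ψ (Lam g l (f ^ 2 * v))‖ ≤ qq F ^ n := by
    have h1 : (Finset.univ : Finset (Fin g → F)).filter (fun l => ¬ l ≠ 0) = {0} := by
      ext l
      simp only [Finset.mem_filter, Finset.mem_univ, true_and, not_not, Finset.mem_singleton]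
    rw [h1, Finset.sum_singleton]
    refine (norm_sum_le _ _).trans (le_of_eq ?_)
    rw [Finset.sum_congr rfl (fun f _ => AddChar.norm_apply ψ _), Finset.sum_const, nsmul_eq_mul,
      mul_one, hcardFC]
    unfold qq
    push_cast
    rfl
  have hne : ∑ l ∈ (Finset.univ : Finset (Fin g → F)).filter (fun l => l ≠ 0),
      ‖∑ f ∈ FC F c n, ψ (Lam g l (f ^ 2 * v))‖ ≤
      ∑ l ∈ (Finset.univ : Finset (Fin g → F)).filter (fun l => l ≠ 0 ∧ ExV g l v n),
        Real.sqrt (qq F ^ n * ((Rad g l v n).card : ℝ)) := by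
    rw [← Finset.filter_filter, Finset.sum_filter (fun l => ExV g l v n)]
    refine Finset.sum_le_sum fun l _ => ?_
    have h1 := hV1 ψ hψ l
    rw [hsumFC]
    have hiff : (∀ z ∈ Rad g l v n, Lam g l (v * z * (C c * X ^ n)) = 0) ↔ ExV g l v n := by
      unfold ExV
      refine forall₂_congr fun z _ => ?_
      rw [show v * z * (C c * X ^ n) = C c * (v * z * X ^ n) by ring, Lam_C_mul]
      constructor
      · intro h
        exact (mul_eq_zero.1 h).resolve_left hc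
      · intro h
        rw [h, mul_zero]
    rw [if_congr hiff rfl rfl] at h1
    by_cases hEx : ExV g l v n
    · rw [if_pos hEx] at h1 ⊢
      exact (le_abs_self _).trans (Real.abs_le_sqrt h1)
    · rw [if_neg hEx] at h1 ⊢
      nlinarith [norm_nonneg (∑ u ∈ POL F n, ψ (Lam g l ((C c * X ^ n + u) ^ 2 * v)))]
  calc qq F ^ g * ((((FC F c n).filter (fun f => IsSol f v)).card : ℕ) : ℝ)
      ≤ qq F ^ g * (T.card : ℝ) := mul_le_mul_of_nonneg_left hle (pow_nonneg hq0 g)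
    _ ≤ _ := hnorm
    _ ≤ _ := by rw [← hsplit]; linarith

end D5V
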