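import Pool.Agent.H731.P5R.V1

/-!
# Even degree: the radical in `POL (2 g + 2)` compared with the radical in `POL (2 g + 1)`
-/

open Polynomial
open scoped Classical

noncomputable section

namespace D5V

open D5 D5.XX1

variable {F : Type} [Field F] [Fintype F] [CharP F 5]

omit [CharP F 5] in
theorem mem_POL_of_coeff (hB0 : S_B0 F) {n : ℕ} {z : F[X]} (hz : z ∈ POL F (n + 1)) (h : z.coeff n = 0) :
    z ∈ POL F n := by
  rw [hB0.1, degree_lt_iff_coeff_zero] at hz ⊢
  intro m hm
  rcases Nat.eq_or_lt_of_le hm with h1 | h1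
  · rw [← h1]
    exact h
  · exact hz m h1

omit [CharP F 5] in
theorem POL_mono (hB0 : S_B0 F) {n : ℕ} {z : F[X]} (hz : z ∈ POL F n) : z ∈ POL F (n + 1) := by
  rw [hB0.1] at hz ⊢
  exact hz.trans (by exact_mod_cast Nat.lt_succ_self n)

omit [CharP F 5] in
theorem rad_of_coeff (hB0 : S_B0 F) {g : ℕ} {l : Fin g → F} {v : F[X]} {n : ℕ} {z : F[X]}
    (hz : z ∈ Rad g l v (n + 1)) (h : z.coeff n = 0) : z ∈ Rad g l v n := by
  unfold Rad at hz ⊢
  rw [Finset.mem_filter] at hz ⊢
  exact ⟨mem_POL_of_coeff hB0 hz.1 h, fun y hy => hz.2 y (POL_mono hB0 hy)⟩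

omit [CharP F 5] in
/-- One more coefficient: at most `q` times as many elements. -/
theorem rad_succ_le (hB0 : S_B0 F) (g : ℕ) (l : Fin g → F) (v : F[X]) (n : ℕ) :
    (Rad g l v (n + 1)).card ≤ (Rad g l v n).card * Fintype.card F := by
  have h1 := Finset.card_le_mul_card_image_of_maps_to (s := Rad g l v (n + 1)) (t := (Finset.univ : Finset F))
    (f := fun z => z.coeff n) (fun _ _ => Finset.mem_univ _) (Rad g l v n).card ?_
  · rwa [Finset.card_univ] at h1
  · intro b _
    rcases ((Rad g l v (n + 1)).filter (fun z => z.coeff n = b)).eq_empty_or_nonempty with he | ⟨z0, hz0⟩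
    · rw [he, Finset.card_empty]
      exact Nat.zero_le _
    · rw [Finset.mem_filter] at hz0
      refine Finset.card_le_card_of_injOn (fun z => z - z0) ?_ (fun a _ b _ h => sub_left_injective h)
      intro z hz
      rw [Finset.mem_coe, Finset.mem_filter] at hz
      refine rad_of_coeff hB0 (rad_sub hB0 hz.1 hz0.1) ?_
      rw [coeff_sub, hz.2, hz0.2, sub_self]

omit [CharP F 5] in
/-- If the linear form `z ↦ Lam (v z X ^ n)` does not vanish on the radical in `POL n`, and `z ↦ Lam (v z X ^ (n + 1))` vanishes on the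
radical in `POL (n + 1)`, then the latter is `{0}`. -/
theorem rad_zero (hB0 : S_B0 F) (g : ℕ) (l : Fin g → F) (v : F[X]) (n : ℕ)
    (h1 : ¬ ExV g l v n) (h2 : ExV g l v (n + 1)) : (Rad g l v (n + 1)).card ≤ 1 := by
  unfold ExV at h1
  push Not at h1
  obtain ⟨z1, hz1, hne⟩ := h1
  have hz1' := hz1
  unfold Rad at hz1'
  rw [Finset.mem_filter] at hz1'
  -- all elements have degree `< n`
  have hdeg : ∀ z ∈ Rad g l v (n + 1), z.coeff n = 0 := by
    intro z hz
    have hz' := hz
    unfold Rad at hz'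
    rw [Finset.mem_filter] at hz'
    have e1 : Lam g l (v * z * z1) = 0 := hz'.2 z1 (POL_mono hB0 hz1'.1)
    set z2 : F[X] := z - C (z.coeff n) * X ^ n with hz2
    have hz2m : z2 ∈ POL F n := by
      rw [hB0.1, degree_lt_iff_coeff_zero]
      intro m hm
      rw [hz2, coeff_sub, coeff_C_mul_X_pow]
      rcases Nat.eq_or_lt_of_le hm with h | h
      · rw [if_pos h.symm, ← h, sub_self]
      · rw [if_neg (by omega), sub_zero]
        have := hz'.1
        rw [hB0.1, degree_lt_iff_coeff_zero] at this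
        exact this m h
    have e2 : Lam g l (v * z1 * z2) = 0 := hz1'.2 z2 hz2m
    have e3 : v * z * z1 = C (z.coeff n) * (v * z1 * X ^ n) + v * z1 * z2 := by
      rw [hz2]
      ring
    rw [e3, Lam_add, Lam_C_mul, e2, add_zero] at e1
    exact (mul_eq_zero.1 e1).resolve_right hne
  -- closed under multiplication by `X`
  have hX : ∀ z ∈ Rad g l v (n + 1), X * z ∈ Rad g l v (n + 1) := by
    intro z hz
    have hc := hdeg z hz
    have hE := h2 z hz
    have hz' := hz
    unfold Rad at hz' ⊢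
    rw [Finset.mem_filter] at hz' ⊢
    refine ⟨?_, fun y hy => ?_⟩
    · have h3 := mem_POL_of_coeff hB0 hz'.1 hc
      rw [hB0.1, degree_lt_iff_coeff_zero] at h3 ⊢
      intro m hm
      obtain ⟨m', rfl⟩ : ∃ m', m = m' + 1 := ⟨m - 1, by omega⟩
      rw [coeff_X_mul]
      exact h3 m' (by omega)
    · set y2 : F[X] := X * y - C (y.coeff n) * X ^ (n + 1) with hy2
      have hy2m : y2 ∈ POL F (n + 1) := by
        rw [hB0.1, degree_lt_iff_coeff_zero] at hy ⊢
        intro m hm
        obtain ⟨m', rfl⟩ : ∃ m', m = m' + 1 := ⟨m - 1, by omega⟩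
        rw [hy2, coeff_sub, coeff_X_mul, coeff_C_mul_X_pow]
        rcases Nat.eq_or_lt_of_le hm with h | h
        · have : m' = n := by omega
          rw [if_pos h.symm, this, sub_self]
        · rw [if_neg (by omega), sub_zero]
          exact hy m' (by omega)
      have e2 : Lam g l (v * z * y2) = 0 := hz'.2 y2 hy2m
      have e3 : v * (X * z) * y = C (y.coeff n) * (v * z * X ^ (n + 1)) + v * z * y2 := by
        rw [hy2]
        ring
      rw [e3, Lam_add, Lam_C_mul, e2, hE, mul_zero, add_zero]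
  have hall : ∀ z ∈ Rad g l v (n + 1), z = 0 := by
    intro z hz
    by_contra h0
    have hpow : ∀ i : ℕ, X ^ i * z ∈ Rad g l v (n + 1) := by
      intro i
      induction i with
      | zero => rwa [pow_zero, one_mul]
      | succ i ih =>
        rw [pow_succ', mul_assoc]
        exact hX _ ih
    have h3 := hpow (n + 1)
    unfold Rad at h3
    rw [Finset.mem_filter, hB0.1, degree_lt_iff_coeff_zero] at h3
    have h4 := h3.1 (z.natDegree + (n + 1)) (by omega)
    rw [coeff_X_pow_mul] at h4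
    exact h0 (leadingCoeff_eq_zero.1 h4)
  rw [Finset.card_le_one]
  intro a ha b hb
  rw [hall a ha, hall b hb]

/-- The sum over all `v ≠ 0` of degree `< g` and all `l ≠ 0`, from Z1. -/
theorem v4 (hB0 : S_B0 F) (g : ℕ) (Z : ℝ)
    (hZ1 : ∑ v ∈ (POL F g).filter (fun v => v ≠ 0),
      ∑ l ∈ (Finset.univ : Finset (Fin g → F)).filter (fun l => l ≠ 0 ∧ Ex g l v),
        Real.sqrt (KK g l v : ℝ) ≤ Z * qq F ^ (2 * g)) :
    ∑ v ∈ (POL F g).filter (fun v => v ≠ 0),
      ∑ l ∈ (Finset.univ : Finset (Fin g → F)).filter (fun l => l ≠ 0 ∧ ExV g l v (2 * g + 2)),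
        Real.sqrt ((Rad g l v (2 * g + 2)).card : ℝ) ≤ (Z + 1) * (Real.sqrt (qq F) * qq F ^ (2 * g)) := by
  have hq1 : 1 ≤ qq F := by
    unfold qq
    exact_mod_cast Fintype.card_pos
  have hsq1 : 1 ≤ Real.sqrt (qq F) := Real.one_le_sqrt.mpr hq1
  have hKK : ∀ (l : Fin g → F) (v : F[X]), KK g l v = (Rad g l v (2 * g + 1)).card := by
    intro l v
    unfold KK Rad
    refine congrArg Finset.card (Finset.ext fun z => ?_)
    simp only [Finset.mem_filter]
  have hEx : ∀ (l : Fin g → F) (v : F[X]), Ex g l v ↔ ExV g l v (2 * g + 1) := by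
    intro l v
    unfold Ex ExV Rad
    constructor
    · intro h z hz
      rw [Finset.mem_filter] at hz
      exact h z hz.1 hz.2
    · intro h z hz hz'
      exact h z (Finset.mem_filter.2 ⟨hz, hz'⟩)
  have hpt : ∀ (v : F[X]),
      ∑ l ∈ (Finset.univ : Finset (Fin g → F)).filter (fun l => l ≠ 0 ∧ ExV g l v (2 * g + 2)),
        Real.sqrt ((Rad g l v (2 * g + 2)).card : ℝ) ≤
      Real.sqrt (qq F) * ∑ l ∈ (Finset.univ : Finset (Fin g → F)).filter (fun l => l ≠ 0 ∧ Ex g l v),
        Real.sqrt (KK g l v : ℝ) + qq F ^ g := by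
    intro v
    have e1 : ∀ l ∈ (Finset.univ : Finset (Fin g → F)).filter (fun l => l ≠ 0 ∧ ExV g l v (2 * g + 2)),
        Real.sqrt ((Rad g l v (2 * g + 2)).card : ℝ) ≤
          (if (l ≠ 0 ∧ Ex g l v) then Real.sqrt (qq F) * Real.sqrt (KK g l v : ℝ) else 0) + 1 := by
      intro l hl
      rw [Finset.mem_filter] at hl
      by_cases hx : Ex g l v
      · rw [if_pos ⟨hl.2.1, hx⟩]
        have h1 : ((Rad g l v (2 * g + 2)).card : ℝ) ≤ qq F * (KK g l v : ℝ) := by
          have h0 : ((Rad g l v (2 * g + 1 + 1)).card : ℝ) ≤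
              ((Rad g l v (2 * g + 1)).card : ℝ) * (Fintype.card F : ℝ) := by
            exact_mod_cast rad_succ_le hB0 g l v (2 * g + 1)
          rw [hKK]
          unfold qq
          calc ((Rad g l v (2 * g + 2)).card : ℝ) ≤
              ((Rad g l v (2 * g + 1)).card : ℝ) * (Fintype.card F : ℝ) := h0
            _ = (Fintype.card F : ℝ) * ((Rad g l v (2 * g + 1)).card : ℝ) := by ring
        have h2 : Real.sqrt ((Rad g l v (2 * g + 2)).card : ℝ) ≤ Real.sqrt (qq F) * Real.sqrt (KK g l v : ℝ) := by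
          rw [← Real.sqrt_mul (by linarith)]
          exact Real.sqrt_le_sqrt h1
        linarith
      · rw [if_neg (fun h => hx h.2)]
        have h1 := rad_zero hB0 g l v (2 * g + 1) (fun h => hx ((hEx l v).2 h)) hl.2.2
        have h2 : ((Rad g l v (2 * g + 2)).card : ℝ) ≤ 1 := by exact_mod_cast h1
        have h3 : Real.sqrt ((Rad g l v (2 * g + 2)).card : ℝ) ≤ 1 := by
          rw [Real.sqrt_le_one]
          exact h2
        linarith
    refine (Finset.sum_le_sum e1).trans ?_
    rw [Finset.sum_add_distrib]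
    have e2 : ∑ l ∈ (Finset.univ : Finset (Fin g → F)).filter (fun l => l ≠ 0 ∧ ExV g l v (2 * g + 2)),
        (if (l ≠ 0 ∧ Ex g l v) then Real.sqrt (qq F) * Real.sqrt (KK g l v : ℝ) else 0) ≤
        Real.sqrt (qq F) * ∑ l ∈ (Finset.univ : Finset (Fin g → F)).filter (fun l => l ≠ 0 ∧ Ex g l v),
        Real.sqrt (KK g l v : ℝ) := by
      rw [Finset.mul_sum, Finset.sum_filter (fun l => l ≠ 0 ∧ Ex g l v)]
      refine Finset.sum_le_sum_of_subset_of_nonneg (Finset.filter_subset _ _) ?_
      intro l _ _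
      split_ifs
      · positivity
      · exact le_rfl
    have e3 : ∑ l ∈ (Finset.univ : Finset (Fin g → F)).filter (fun l => l ≠ 0 ∧ ExV g l v (2 * g + 2)), (1 : ℝ) ≤
        qq F ^ g := by
      rw [Finset.sum_const, nsmul_eq_mul, mul_one]
      have : ((Finset.univ : Finset (Fin g → F)).filter (fun l => l ≠ 0 ∧ ExV g l v (2 * g + 2))).card ≤
          Fintype.card F ^ g := by
        refine (Finset.card_filter_le _ _).trans (le_of_eq ?_)
        rw [Finset.card_univ, Fintype.card_fun, Fintype.card_fin]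
      unfold qq
      exact_mod_cast this
    linarith
  refine (Finset.sum_le_sum (fun v _ => hpt v)).trans ?_
  rw [Finset.sum_add_distrib, ← Finset.mul_sum, Finset.sum_const, nsmul_eq_mul]
  have hc : ((((POL F g).filter (fun v => v ≠ 0)).card : ℕ) : ℝ) ≤ qq F ^ g := by
    have : ((POL F g).filter (fun v => v ≠ 0)).card ≤ Fintype.card F ^ g := by
      rw [← hB0.2.2.2.1 g]
      exact Finset.card_filter_le _ _
    unfold qq
    exact_mod_cast this
  have hg0 : 0 ≤ qq F ^ g := by positivity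
  have h1 : ((((POL F g).filter (fun v => v ≠ 0)).card : ℕ) : ℝ) * qq F ^ g ≤ qq F ^ (2 * g) := by
    refine (mul_le_mul_of_nonneg_right hc hg0).trans (le_of_eq ?_)
    ring
  have h2 := mul_le_mul_of_nonneg_left hZ1 (Real.sqrt_nonneg (qq F))
  have h3 : qq F ^ (2 * g) ≤ Real.sqrt (qq F) * qq F ^ (2 * g) := le_mul_of_one_le_left (by positivity) hsq1
  have h4 : (Z + 1) * (Real.sqrt (qq F) * qq F ^ (2 * g)) =
      Real.sqrt (qq F) * (Z * qq F ^ (2 * g)) + Real.sqrt (qq F) * qq F ^ (2 * g) := by ring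
  rw [h4]
  linarith

end D5V
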