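import Pool.Agent.H731.P5R.V3
import Pool.Agent.H731.P5R.Half

/-!
# Even degree, non-square leading coefficient: the average of the 5-torsion
-/

open Polynomial
open scoped Classical

noncomputable section

namespace D5V

open D5 D5.XX1

variable {F : Type} [Field F] [Fintype F] [CharP F 5]

omit [CharP F 5] in
theorem mem_FC (hB0 : S_B0 F) (c : F) (hc : c ≠ 0) (n : ℕ) (f : F[X]) :
    f ∈ FC F c n ↔ f.natDegree = n ∧ f.leadingCoeff = c := by
  unfold FC
  rw [Finset.mem_image]
  constructor
  · rintro ⟨u, hu, rfl⟩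
    rw [hB0.1] at hu
    have h1 : (C c * X ^ n : F[X]).degree = (n : WithBot ℕ) := degree_C_mul_X_pow n hc
    have h2 : (C c * X ^ n + u).degree = (n : WithBot ℕ) := by
      rw [degree_add_eq_left_of_degree_lt (by rwa [h1]), h1]
    have h3 : (C c * X ^ n + u).natDegree = n := natDegree_eq_of_degree_eq_some h2
    refine ⟨h3, ?_⟩
    rw [leadingCoeff, h3, coeff_add, coeff_C_mul_X_pow, if_pos rfl,
      (degree_lt_iff_coeff_zero _ _).1 hu n le_rfl, add_zero]
  · rintro ⟨h1, h2⟩
    refine ⟨f - C c * X ^ n, ?_, by ring⟩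
    rw [hB0.1, degree_lt_iff_coeff_zero]
    intro m hm
    rw [coeff_sub, coeff_C_mul_X_pow]
    rcases Nat.eq_or_lt_of_le hm with h | h
    · rw [if_pos h.symm, ← h, ← h1, ← h2]
      exact sub_self _
    · rw [if_neg (by omega), sub_zero]
      exact coeff_eq_zero_of_natDegree_lt (by omega)

/-- For a non-square leading coefficient the nonzero solutions have degree `< g`. -/
theorem v5 (hB1 : S_B1 F) (g : ℕ) (f v : F[X]) (hf : f.natDegree = 2 * g + 2) (hns : ¬ IsSquare f.leadingCoeff)
    (hv : v ≠ 0) (hs : IsSol f v) : v.natDegree < g := by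
  obtain ⟨-, -, h3, h4, -⟩ := hB1
  have h5 := h4 f v hv hs
  rw [hf] at h5
  by_contra hge
  have hd : v.natDegree = g := by omega
  have h6 := (h3 f v).1 hs g
  have hf0 : f ≠ 0 := by
    rintro rfl
    exact hns (by rw [leadingCoeff_zero]; exact IsSquare.zero)
  have h7 : (f ^ 2 * v).coeff (5 * g + 4) = f.leadingCoeff ^ 2 * v.leadingCoeff := by
    have e : 5 * g + 4 = (f ^ 2).natDegree + v.natDegree := by
      rw [natDegree_pow, hf, hd]
      ring
    rw [e, coeff_mul_degree_add_degree, leadingCoeff_pow]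
  have hvc : v.coeff g = v.leadingCoeff := by rw [leadingCoeff, hd]
  rw [h7, hvc] at h6
  have hv0 : v.leadingCoeff ≠ 0 := leadingCoeff_ne_zero.2 hv
  set c := f.leadingCoeff with hc
  set r := v.leadingCoeff with hr
  have h8 : c ^ 2 = r ^ 4 := by
    have : r * c ^ 2 = r * r ^ 4 := by linear_combination h6
    exact mul_left_cancel₀ hv0 this
  have h9 : (c - r ^ 2) * (c + r ^ 2) = 0 := by linear_combination h8
  rcases mul_eq_zero.1 h9 with h | h
  · exact hns ⟨r, by linear_combination h⟩
  · refine hns ⟨2 * r, ?_⟩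
    have h50 : (5 : F) = 0 := by
      have := CharP.cast_eq_zero F 5
      exact_mod_cast this
    linear_combination h - r ^ 2 * h50

end D5V
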