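import Pool.Agent.H731.P5R.V5

/-!
# Even degree, non-square leading coefficient: the final summation
-/

open Polynomial
open scoped Classical

noncomputable section

namespace D5V

open D5 D5.XX1

variable {F : Type} [Field F] [Fintype F] [CharP F 5]

theorem five_le_card : 5 ≤ Fintype.card F := by
  obtain ⟨n, hp, hn⟩ := FiniteField.card F 5
  have h1 : 5 ^ 1 ≤ 5 ^ (n : ℕ) := Nat.pow_le_pow_right (by norm_num) n.pos
  omega

theorem geo' (p N : ℕ) : ∀ m : ℕ, m ≤ N →
    p * ∑ d ∈ Finset.Icc 1 m, (p + 1) ^ (N - d) + (p + 1) ^ (N - m) ≤ (p + 1) ^ N := by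
  intro m
  induction m with
  | zero => intro _; simp
  | succ m ih =>
    intro hm
    have h := ih (by omega)
    rw [Finset.sum_Icc_succ_top (by omega)]
    have e : (p + 1) ^ (N - m) = (p + 1) * (p + 1) ^ (N - (m + 1)) := by
      rw [← pow_succ']
      congr 1
      omega
    rw [e] at h
    calc p * (∑ k ∈ Finset.Icc 1 m, (p + 1) ^ (N - k) + (p + 1) ^ (N - (m + 1))) + (p + 1) ^ (N - (m + 1)) =
        p * ∑ k ∈ Finset.Icc 1 m, (p + 1) ^ (N - k) + (p + 1) * (p + 1) ^ (N - (m + 1)) := by ring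
      _ ≤ _ := h

/-- The squarefree polynomials of degree `n` with leading coefficient `c`. -/
def SC (F : Type) [Field F] [Fintype F] (c : F) (n : ℕ) : Finset F[X] := (FC F c n).filter (fun f => Squarefree f)

theorem card_SC (hB0 : S_B0 F) (c : F) (hc : c ≠ 0) (n : ℕ) :
    (Fintype.card F - 2) * Fintype.card F ^ n ≤ (Fintype.card F - 1) * (SC F c n).card := by
  have hB0' : P5.S_B0 F := P5.a_B0 F
  have hq := five_le_card (F := F)
  obtain ⟨p, hp⟩ : ∃ p, Fintype.card F = p + 1 := ⟨Fintype.card F - 1, by omega⟩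
  have hinj : ((P5.XE1.MON F n).filter (fun f => Squarefree f)).card ≤ (SC F c n).card := by
    refine Finset.card_le_card_of_injOn (fun f => C c * f) ?_ ?_
    · intro f hf
      rw [Finset.mem_coe, Finset.mem_filter, P5.XE1.mem_MON hB0'] at hf
      unfold SC
      rw [Finset.mem_coe, Finset.mem_filter, mem_FC hB0 c hc]
      refine ⟨⟨?_, ?_⟩, ?_⟩
      · show (C c * f).natDegree = n
        rw [natDegree_C_mul hc, hf.1.2]
      · show (C c * f).leadingCoeff = c
        rw [leadingCoeff_C_mul_of_isUnit hc.isUnit, hf.1.1.leadingCoeff, mul_one]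
      · exact (associated_unit_mul_left f (C c) (isUnit_C.mpr hc.isUnit)).squarefree_iff.mpr hf.2
    · intro a _ b _ h
      exact mul_left_cancel₀ (C_ne_zero.mpr hc) h
  have hsub : P5.XE1.MON F n ⊆ (P5.XE1.MON F n).filter (fun f => Squarefree f) ∪
      (Finset.Icc 1 (n / 2)).biUnion
      (fun d => (P5.XE1.MON F d ×ˢ P5.XE1.MON F (n - 2 * d)).image (fun z => z.1 * z.1 * z.2)) := by
    intro f hf
    by_cases hs : Squarefree f
    · exact Finset.mem_union_left _ (Finset.mem_filter.2 ⟨hf, hs⟩)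
    · refine Finset.mem_union_right _ ?_
      rw [P5.XE1.mem_MON hB0'] at hf
      obtain ⟨d, hd, z, hz, he⟩ := P5.XE1.bad hB0' n f hf.1 hf.2 hs
      rw [Finset.mem_biUnion]
      exact ⟨d, hd, Finset.mem_image.mpr ⟨z, hz, he⟩⟩
  have h1 : ((Finset.Icc 1 (n / 2)).biUnion
      (fun d => (P5.XE1.MON F d ×ˢ P5.XE1.MON F (n - 2 * d)).image (fun z => z.1 * z.1 * z.2))).card ≤
      ∑ d ∈ Finset.Icc 1 (n / 2), Fintype.card F ^ (n - d) := by
    refine Finset.card_biUnion_le.trans (Finset.sum_le_sum fun d hd => ?_)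
    refine Finset.card_image_le.trans ?_
    rw [Finset.card_product, P5.XE1.card_MON hB0', P5.XE1.card_MON hB0', ← pow_add]
    rw [Finset.mem_Icc] at hd
    have : d + (n - 2 * d) = n - d := by omega
    rw [this]
  have h2 := geo' p n (n / 2) (by omega)
  have h3 := (Finset.card_le_card hsub).trans (Finset.card_union_le _ _)
  rw [P5.XE1.card_MON hB0'] at h3
  rw [hp] at h1 h3 ⊢
  have h4 : (p + 1) ^ n ≤ (SC F c n).card + ∑ d ∈ Finset.Icc 1 (n / 2), (p + 1) ^ (n - d) :=
    h3.trans (Nat.add_le_add hinj h1)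
  have h5 := Nat.mul_le_mul_left p h4
  have h6 : p * (p + 1) ^ n = (p - 1) * (p + 1) ^ n + (p + 1) ^ n := by
    obtain ⟨r, hr⟩ : ∃ r, p = r + 1 := ⟨p - 1, by omega⟩
    rw [hr]
    have : r + 1 - 1 = r := by omega
    rw [this]
    ring
  have e1 : p + 1 - 2 = p - 1 := by omega
  have e2 : p + 1 - 1 = p := by omega
  rw [e1, e2]
  rw [Nat.mul_add] at h5
  omega

/-- The sum over the squarefree `f` of degree `2 g + 2` with the non-square leading coefficient `c`. -/
theorem v6 (hB0 : S_B0 F) (hB1 : S_B1 F) (g : ℕ) (Z : ℝ) (hZ : 0 ≤ Z) (c : F) (hc : ¬ IsSquare c)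
    (hZ1 : ∑ v ∈ (POL F g).filter (fun v => v ≠ 0),
      ∑ l ∈ (Finset.univ : Finset (Fin g → F)).filter (fun l => l ≠ 0 ∧ Ex g l v),
        Real.sqrt (KK g l v : ℝ) ≤ Z * qq F ^ (2 * g)) :
    ((∑ f ∈ SC F c (2 * g + 2), P5.cl5 f : ℕ) : ℝ) ≤
      (2 + (2 + 3 * (Z + 1) / 2) / Real.sqrt (qq F)) * ((SC F c (2 * g + 2)).card : ℝ) := by
  have hc0 : c ≠ 0 := by
    rintro rfl
    exact hc IsSquare.zero
  have hq5' := five_le_card (F := F)
  have hq5 : (5 : ℝ) ≤ qq F := by
    unfold qq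
    exact_mod_cast hq5'
  have hq0 : 0 < qq F := by linarith
  have hmem : ∀ f ∈ SC F c (2 * g + 2), Squarefree f ∧ f.natDegree = 2 * g + 2 ∧ f.leadingCoeff = c := by
    intro f hf
    unfold SC at hf
    rw [Finset.mem_filter, mem_FC hB0 c hc0] at hf
    exact ⟨hf.2, hf.1.1, hf.1.2⟩
  have h1 : ∀ f ∈ SC F c (2 * g + 2), P5.cl5 f ≤
      1 + ((POL F g).filter (fun v => v ≠ 0 ∧ IsSol f v)).card := by
    intro f hf
    obtain ⟨hs, hd, hl⟩ := hmem f hf
    refine ((P5.a_A9 F f hs (by omega)).2).trans ?_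
    have hsub : (P5.POL F f.natDegree).filter (fun v => P5.IsSol f v) ⊆
        {0} ∪ (POL F g).filter (fun v => v ≠ 0 ∧ IsSol f v) := by
      intro v hv
      rw [Finset.mem_filter] at hv
      have hv2 : IsSol f v := hv.2
      rw [Finset.mem_union, Finset.mem_singleton, Finset.mem_filter]
      by_cases h0 : v = 0
      · exact Or.inl h0
      · refine Or.inr ⟨?_, h0, hv2⟩
        have h2 := v5 hB1 g f v hd (by rw [hl]; exact hc) h0 hv2
        rw [hB0.1, degree_eq_natDegree h0]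
        exact_mod_cast h2
    refine (Finset.card_le_card hsub).trans ((Finset.card_union_le _ _).trans ?_)
    rw [Finset.card_singleton]
  have h2 : ∑ f ∈ SC F c (2 * g + 2), ((POL F g).filter (fun v => v ≠ 0 ∧ IsSol f v)).card =
      ∑ v ∈ (POL F g).filter (fun v => v ≠ 0), ((SC F c (2 * g + 2)).filter (fun f => IsSol f v)).card := by
    have e1 : ∀ f, ((POL F g).filter (fun v => v ≠ 0 ∧ IsSol f v)).card =
        ∑ v ∈ (POL F g).filter (fun v => v ≠ 0), if IsSol f v then 1 else 0 := by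
      intro f
      rw [← Finset.filter_filter, Finset.card_filter]
    have e2 : ∀ v, ((SC F c (2 * g + 2)).filter (fun f => IsSol f v)).card =
        ∑ f ∈ SC F c (2 * g + 2), if IsSol f v then 1 else 0 := by
      intro v
      rw [Finset.card_filter]
    rw [Finset.sum_congr rfl (fun f _ => e1 f), Finset.sum_comm]
    exact Finset.sum_congr rfl (fun v _ => (e2 v).symm)
  have h3 : ∀ v ∈ (POL F g).filter (fun v => v ≠ 0), ((SC F c (2 * g + 2)).filter (fun f => IsSol f v)).card ≤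
      ((FC F c (2 * g + 2)).filter (fun f => IsSol f v)).card := by
    intro v _
    exact Finset.card_le_card (Finset.filter_subset_filter _ (Finset.filter_subset _ _))
  have hsum : ((∑ f ∈ SC F c (2 * g + 2), P5.cl5 f : ℕ) : ℝ) ≤ ((SC F c (2 * g + 2)).card : ℝ) +
      ∑ v ∈ (POL F g).filter (fun v => v ≠ 0), (((FC F c (2 * g + 2)).filter (fun f => IsSol f v)).card : ℝ) := by
    have e : ∑ f ∈ SC F c (2 * g + 2), P5.cl5 f ≤ (SC F c (2 * g + 2)).card +
        ∑ v ∈ (POL F g).filter (fun v => v ≠ 0), ((FC F c (2 * g + 2)).filter (fun f => IsSol f v)).card := by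
      refine (Finset.sum_le_sum h1).trans ?_
      rw [Finset.sum_add_distrib, h2, Finset.sum_const, smul_eq_mul, mul_one]
      exact Nat.add_le_add_left (Finset.sum_le_sum h3) _
    have e' : ((∑ f ∈ SC F c (2 * g + 2), P5.cl5 f : ℕ) : ℝ) ≤ (((SC F c (2 * g + 2)).card +
        ∑ v ∈ (POL F g).filter (fun v => v ≠ 0), ((FC F c (2 * g + 2)).filter (fun f => IsSol f v)).card : ℕ) : ℝ) := by
      exact_mod_cast e
    refine e'.trans ?_
    rw [Nat.cast_add, Nat.cast_sum]
  -- the pairs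
  obtain ⟨s, hs⟩ : ∃ s : ℝ, s = Real.sqrt (qq F) := ⟨_, rfl⟩
  have hs0 : 0 < s := by rw [hs]; exact Real.sqrt_pos.2 hq0
  have hss : s * s = qq F := by rw [hs]; exact Real.mul_self_sqrt hq0.le
  have hs2 : 2 ≤ s := by
    by_contra h
    push Not at h
    nlinarith
  have hpairs : ∑ v ∈ (POL F g).filter (fun v => v ≠ 0),
      (((FC F c (2 * g + 2)).filter (fun f => IsSol f v)).card : ℝ) ≤
      qq F ^ (2 * g + 2) * (1 + (Z + 1) / s) := by
    have e1 : ∀ v ∈ (POL F g).filter (fun v => v ≠ 0),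
        qq F ^ g * (((FC F c (2 * g + 2)).filter (fun f => IsSol f v)).card : ℝ) ≤
        qq F ^ (2 * g + 2) + qq F ^ (g + 1) *
          ∑ l ∈ (Finset.univ : Finset (Fin g → F)).filter (fun l => l ≠ 0 ∧ ExV g l v (2 * g + 2)),
            Real.sqrt ((Rad g l v (2 * g + 2)).card : ℝ) := by
      intro v _
      refine (v2 hB0 hB1 g (2 * g + 2) c hc0 v).trans (le_of_eq ?_)
      rw [Finset.mul_sum]
      congr 1
      refine Finset.sum_congr rfl fun l _ => ?_
      rw [Real.sqrt_mul (by positivity)]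
      congr 1
      rw [show 2 * g + 2 = (g + 1) * 2 by ring, pow_mul]
      exact Real.sqrt_sq (by positivity)
    have e2 := Finset.sum_le_sum e1
    rw [← Finset.mul_sum, Finset.sum_add_distrib, ← Finset.mul_sum, Finset.sum_const, nsmul_eq_mul] at e2
    have e3 := v4 hB0 g Z hZ1
    rw [← hs] at e3
    have hcv : ((((POL F g).filter (fun v => v ≠ 0)).card : ℕ) : ℝ) ≤ qq F ^ g := by
      have : ((POL F g).filter (fun v => v ≠ 0)).card ≤ Fintype.card F ^ g := by
        rw [← hB0.2.2.2.1 g]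
        exact Finset.card_filter_le _ _
      unfold qq
      exact_mod_cast this
    have e4 := mul_le_mul_of_nonneg_right hcv (by positivity : (0 : ℝ) ≤ qq F ^ (2 * g + 2))
    have e5 := mul_le_mul_of_nonneg_left e3 (by positivity : (0 : ℝ) ≤ qq F ^ (g + 1))
    have e6 : qq F ^ (g + 1) * ((Z + 1) * (s * qq F ^ (2 * g))) = qq F ^ g * (qq F ^ (2 * g + 2) * ((Z + 1) / s)) := by
      have h7 : qq F ^ (2 * g + 2) = s * s * qq F * qq F ^ (2 * g) := by
        rw [hss]
        ring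
      rw [h7]
      field_simp
      ring
    have e7 : qq F ^ g * ∑ v ∈ (POL F g).filter (fun v => v ≠ 0),
        (((FC F c (2 * g + 2)).filter (fun f => IsSol f v)).card : ℝ) ≤
        qq F ^ g * (qq F ^ (2 * g + 2) * (1 + (Z + 1) / s)) := by
      refine e2.trans ?_
      have : qq F ^ g * (qq F ^ (2 * g + 2) * (1 + (Z + 1) / s)) =
          qq F ^ g * qq F ^ (2 * g + 2) + qq F ^ g * (qq F ^ (2 * g + 2) * ((Z + 1) / s)) := by ring
      rw [this, ← e6]
      linarith
    exact le_of_mul_le_mul_left e7 (by positivity)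
  have hcard : (qq F - 2) * qq F ^ (2 * g + 2) ≤ (qq F - 1) * ((SC F c (2 * g + 2)).card : ℝ) := by
    have h7 := card_SC hB0 c hc0 (2 * g + 2)
    have h8 : (((Fintype.card F - 2) * Fintype.card F ^ (2 * g + 2) : ℕ) : ℝ) ≤
        (((Fintype.card F - 1) * (SC F c (2 * g + 2)).card : ℕ) : ℝ) := by exact_mod_cast h7
    rw [Nat.cast_mul, Nat.cast_mul, Nat.cast_sub (by omega), Nat.cast_sub (by omega), Nat.cast_pow] at h8
    unfold qq
    exact_mod_cast h8
  set S : ℝ := ((SC F c (2 * g + 2)).card : ℝ) with hS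
  have hS0 : 0 ≤ S := Nat.cast_nonneg _
  set Q : ℝ := qq F ^ (2 * g + 2) with hQ
  have hQS : Q ≤ S * (1 + 1 / s) := by
    have h9 : Q * (qq F - 2) ≤ S * (qq F - 1) := by linarith
    have h10 : (qq F - 1) ≤ (qq F - 2) * (1 + 1 / s) := by
      have h11 : s ≤ qq F - 2 := by nlinarith
      have h12 : 1 ≤ (qq F - 2) / s := by
        rw [le_div_iff₀ hs0]
        linarith
      have h13 : (qq F - 2) * (1 + 1 / s) = (qq F - 2) + (qq F - 2) / s := by ring
      rw [h13]
      linarith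
    have h14 : Q * (qq F - 2) ≤ (S * (1 + 1 / s)) * (qq F - 2) := by
      refine h9.trans ?_
      calc S * (qq F - 1) ≤ S * ((qq F - 2) * (1 + 1 / s)) := mul_le_mul_of_nonneg_left h10 hS0
        _ = _ := by ring
    exact le_of_mul_le_mul_right h14 (by linarith)
  have hx : 0 ≤ 1 + (Z + 1) / s := by positivity
  have hfin : Q * (1 + (Z + 1) / s) ≤ S * (1 + (2 + 3 * (Z + 1) / 2) / s) := by
    refine (mul_le_mul_of_nonneg_right hQS hx).trans ?_
    rw [mul_assoc]
    refine mul_le_mul_of_nonneg_left ?_ hS0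
    have h15 : 1 / s ≤ 1 / 2 := one_div_le_one_div_of_le (by norm_num) hs2
    have h16 : (1 + 1 / s) * (1 + (Z + 1) / s) = 1 + (1 / s) * (1 + (Z + 1) + (Z + 1) * (1 / s)) := by
      ring
    have h17 : (2 + 3 * (Z + 1) / 2) / s = (1 / s) * (2 + 3 * (Z + 1) / 2) := by ring
    rw [h16, h17]
    have h18 : (Z + 1) * (1 / s) ≤ (Z + 1) * (1 / 2) := mul_le_mul_of_nonneg_left h15 (by linarith)
    have h19 : (1 / s) * (1 + (Z + 1) + (Z + 1) * (1 / s)) ≤ (1 / s) * (2 + 3 * (Z + 1) / 2) :=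
      mul_le_mul_of_nonneg_left (by linarith) (by positivity)
    linarith
  rw [← hs]
  calc ((∑ f ∈ SC F c (2 * g + 2), P5.cl5 f : ℕ) : ℝ) ≤ S + Q * (1 + (Z + 1) / s) := hsum.trans (by linarith)
    _ ≤ S + S * (1 + (2 + 3 * (Z + 1) / 2) / s) := by linarith
    _ = (2 + (2 + 3 * (Z + 1) / 2) / s) * S := by ring

end D5V
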