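import Pool.Agent.H731.P5R.V6

/-!
# Even degree: the sum over all non-square leading coefficients
-/

open Polynomial
open scoped Classical

noncomputable section

namespace D5V

open D5 D5.XX1

variable (F : Type) [Field F] [Fintype F] [CharP F 5]

/-- The squarefree polynomials of degree `n` whose leading coefficient is not a square. -/
def NS (n : ℕ) : Finset F[X] := (P5.SQ F n).filter (fun f => ¬ IsSquare f.leadingCoeff)

theorem v7 (hB0 : S_B0 F) (hB1 : S_B1 F) (hZ1 : S_Z1 F) (g : ℕ) (hg : 40 ≤ g) :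
    ((∑ f ∈ NS F (2 * g + 2), P5.cl5 f : ℕ) : ℝ) ≤
      (2 + 400000 / Real.sqrt (qq F)) * ((NS F (2 * g + 2)).card : ℝ) := by
  have hq0 : 0 < qq F := by
    unfold qq
    exact_mod_cast Fintype.card_pos
  have hs0 : 0 < Real.sqrt (qq F) := Real.sqrt_pos.2 hq0
  have hfib : ∀ c : F, ¬ IsSquare c → (NS F (2 * g + 2)).filter (fun f => f.leadingCoeff = c) = SC F c (2 * g + 2) := by
    intro c hc
    have hc0 : c ≠ 0 := by
      rintro rfl
      exact hc IsSquare.zero
    ext f
    unfold NS SC P5.SQ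
    rw [Finset.mem_filter, Finset.mem_filter, Finset.mem_filter, Finset.mem_filter, mem_FC hB0 c hc0,
      (P5.a_B0 F).2.1]
    constructor
    · rintro ⟨⟨⟨-, h1, h2⟩, -⟩, h3⟩
      exact ⟨⟨h2, h3⟩, h1⟩
    · rintro ⟨⟨h2, h3⟩, h1⟩
      exact ⟨⟨⟨h2.le, h1, h2⟩, by rw [h3]; exact hc⟩, h3⟩
  have hempty : ∀ c : F, IsSquare c → (NS F (2 * g + 2)).filter (fun f => f.leadingCoeff = c) = ∅ := by
    intro c hc
    rw [Finset.filter_eq_empty_iff]
    intro f hf h
    unfold NS at hf
    rw [Finset.mem_filter] at hf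
    exact hf.2 (by rw [h]; exact hc)
  have hpt : ∀ c : F, ((∑ f ∈ (NS F (2 * g + 2)).filter (fun f => f.leadingCoeff = c), P5.cl5 f : ℕ) : ℝ) ≤
      (2 + 400000 / Real.sqrt (qq F)) *
        ((((NS F (2 * g + 2)).filter (fun f => f.leadingCoeff = c)).card : ℕ) : ℝ) := by
    intro c
    by_cases hc : IsSquare c
    · rw [hempty c hc]
      simp
    · rw [hfib c hc]
      refine (v6 hB0 hB1 g 200000 (by norm_num) c hc (hZ1 g hg)).trans ?_
      refine mul_le_mul_of_nonneg_right ?_ (Nat.cast_nonneg _)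
      have : (2 + 3 * ((200000 : ℝ) + 1) / 2) / Real.sqrt (qq F) ≤ 400000 / Real.sqrt (qq F) := by
        gcongr
        norm_num
      linarith
  have h1 := Finset.sum_fiberwise (NS F (2 * g + 2)) (fun f => f.leadingCoeff) (fun f => P5.cl5 f)
  have h2 := Finset.card_eq_sum_card_fiberwise (s := NS F (2 * g + 2)) (t := (Finset.univ : Finset F))
    (f := fun f => f.leadingCoeff) (fun _ _ => Finset.mem_coe.2 (Finset.mem_univ _))
  rw [← h1, h2, Nat.cast_sum, Nat.cast_sum, Finset.mul_sum]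
  exact Finset.sum_le_sum fun c _ => hpt c

end D5V
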