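import Pool.Agent.H731.P5R.V7
import Pool.Agent.H731.P5R.Main
import Pool.Agent.H506.D5.X3
import Pool.Agent.H506.D5.X4
import Pool.Agent.H506.D5.X5
import Pool.Agent.H506.D5.X6
import Pool.Agent.H506.D5.X7a
import Pool.Agent.H506.D5.X7
import Pool.Agent.H506.D5.X8
import Pool.Agent.H506.D5.X9
import Pool.Agent.H506.D5.X10
import Pool.Agent.H506.D5.X11
import Pool.Agent.H506.D5.Y1
import Pool.Agent.H506.D5.Y2
import Pool.Agent.H506.D5.Y3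
import Pool.Agent.H506.D5.Y4
import Pool.Agent.H506.D5.Z1

/-!
# Even degree: assembly with the lemmas of part 3 of the project D5 of helper506
-/

open Polynomial
open scoped Classical

noncomputable section

namespace D5V

open D5 D5R

variable (F : Type) [Field F] [Fintype F] [CharP F 5]

theorem k_X3 : S_X3 F := p_X3 F (c_B0 F)
theorem k_X4 : S_X4 F := p_X4 F (c_B0 F) (c_G F)
theorem k_X5 : S_X5 F := p_X5 F (c_B0 F) (c_FR F) (c_E4 F) (c_P0 F) (c_P1 F)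
theorem k_X6 : S_X6 F := p_X6 F (c_B0 F)
theorem k_X7a : S_X7a F := p_X7a F (c_B0 F)
theorem k_X7 : S_X7 F := p_X7 F (c_B0 F) (c_Q F) (k_X6 F) (k_X7a F)
theorem k_X8 : S_X8 F := p_X8 F (c_B0 F) (c_FR F) (c_P0 F) (c_P0b F)
theorem k_X9 : S_X9 F := p_X9 F (c_B0 F) (c_E4 F) (c_R1 F) (k_X7 F) (k_X8 F)
theorem k_X10 : S_X10 F := p_X10 F (c_B0 F) (k_X3 F) (k_X9 F)
theorem k_X11 : S_X11 F := p_X11 F (c_B0 F) (c_SQ F) (c_E4 F) (k_X9 F) (k_X10 F)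
theorem k_Y1 : S_Y1 F := p_Y1 F (c_B0 F) (c_FR F) (c_E4 F) (c_P0 F)
theorem k_Y2 : S_Y2 F := p_Y2 F (c_B0 F)
theorem k_Y3 : S_Y3 F := p_Y3 F (c_B0 F)
theorem k_Y4 : S_Y4 F := p_Y4 F (c_B0 F) (c_FR F) (c_E4 F) (k_X3 F) (k_Y1 F) (k_Y2 F) (k_Y3 F)
theorem k_Z1 : S_Z1 F := p_Z1 F (c_B0 F) (k_X4 F) (k_X5 F) (k_X11 F) (k_Y4 F)

theorem inert (g : ℕ) (hg : 40 ≤ g) :
    ((∑ f ∈ NS F (2 * g + 2), P5.cl5 f : ℕ) : ℝ) ≤
      (2 + 400000 / Real.sqrt (qq F)) * ((NS F (2 * g + 2)).card : ℝ) :=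
  v7 F (c_B0 F) (c_B1 F) (k_Z1 F) g hg

end D5V
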